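import Pool.Agent.Helper327_Sch.Fin.CFIN

/-!
# Schiffer's conjecture for solutions with a circular level line

If a level set of the solution of (S), or of its derivative in the radial direction, has infinitely
many points in common with some circle contained in `Ω`, then `Ω` is a disc concentric with this
circle. More generally it suffices that `A u + E r ∂u/∂r` agrees with a trigonometric polynomial of the
polar angle at infinitely many points of the circle. Behind it: large-order Bessel functions do not
vanish at `√lam r`, so all but finitely many Fourier–Bessel modes of `u` about the centre vanish;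
critical points of such a finite sum are isolated unless it is radial.
-/

set_option autoImplicit false

open MeasureTheory Filter

namespace Pool.Agent.Results.MP_83fd13_an.CircularLevel

/-- `u` is a weak solution of the overdetermined problem (S) in `Ω` with boundary value `c`:
`-Δu = lam u` in `Ω`, `∂u/∂n = 0` and `u = c` on `∂Ω`. `G` is the weak gradient of `u`; both boundary
conditions are expressed by testing with functions that need not vanish on `∂Ω`. -/
def Solves (Ω : Set ℂ) (lam c : ℝ) (u : ℂ → ℝ) (G : ℂ → ℂ) : Prop :=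
  MemLp u 2 (volume.restrict Ω) ∧ MemLp G 2 (volume.restrict Ω) ∧
    (∀ φ : ℂ → ℝ, ContDiff ℝ 1 φ → HasCompactSupport φ → ∀ v : ℂ,
      ∫ x in Ω, (u x - c) * (fderiv ℝ φ x v) = - ∫ x in Ω, @inner ℝ ℂ _ (G x) v * φ x) ∧
    (∀ φ : ℂ → ℝ, ContDiff ℝ 1 φ → HasCompactSupport φ →
      ∫ x in Ω, fderiv ℝ φ x (G x) = lam * ∫ x in Ω, u x * φ x)

/-- The Bessel function `J_N`. -/
noncomputable def J (N : ℕ) (t : ℝ) : ℝ :=
  ∑' k : ℕ, (-1) ^ k / ((k.factorial : ℝ) * ((k + N).factorial : ℝ)) * (t / 2) ^ (2 * k + N)

/-- The trigonometric polynomial `∑_{m ≤ M} (a_m cos mθ + b_m sin mθ)`. -/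
noncomputable def trig (M : ℕ) (a b : ℕ → ℝ) (θ : ℝ) : ℝ :=
  ∑ m ∈ Finset.range (M + 1), (a m * Real.cos (m * θ) + b m * Real.sin (m * θ))

/-- Let `Ω` be a bounded domain with connected complement, equal to the interior of its closure, let
`lam > 0` and let `u` be a nontrivial solution of (S) on `Ω`, continuous in `Ω`. Let the circle
`|x - p| = r`, `r > 0`, be contained in `Ω`. If for some constants `A`, `E`, not both zero, the function
`A u + E r ∂u/∂r` (polar coordinates about `p`) agrees with a trigonometric polynomial of the polar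
angle at infinitely many points of this circle, then `Ω` is a disc with centre `p`, its radius `R`
satisfies `J_1(√lam R) = 0`, and `u = K J_0(√lam |x - p|)` in `Ω` for some constant `K`. -/
theorem result (Ω : Set ℂ) (ho : IsOpen Ω) (hb : Bornology.IsBounded Ω) (hΩ : IsConnected Ω)
    (hco : IsConnected Ωᶜ) (hint : interior (closure Ω) = Ω) (lam c : ℝ) (hlam : 0 < lam)
    (u : ℂ → ℝ) (G : ℂ → ℂ) (hS : Solves Ω lam c u G) (hu0 : ¬ (u =ᵐ[volume.restrict Ω] 0))
    (hcont : ContinuousOn u Ω) (p : ℂ) (r : ℝ) (hr : 0 < r) (hsph : Metric.sphere p r ⊆ Ω)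
    (A E : ℝ) (hAE : A ≠ 0 ∨ E ≠ 0) (M : ℕ) (a b : ℕ → ℝ)
    (hT : {x ∈ Metric.sphere p r | A * u x + E * fderiv ℝ u x (x - p) =
      trig M a b (Complex.arg (x - p))}.Infinite) :
    ∃ R K : ℝ, 0 < R ∧ Ω = Metric.ball p R ∧ J 1 (Real.sqrt lam * R) = 0 ∧
      ∀ x ∈ Ω, u x = K * J 0 (Real.sqrt lam * ‖x - p‖) := by
  obtain ⟨hu, hG, h1, h2⟩ := hS
  exact Pool.Agent.Helper327_Sch.CC.circ_level ho hb hΩ hco.isPreconnected hint hlam
    ⟨hu, hG, h1, h2⟩ hu0 hcont p r hr hsph A E hAE M a b hT

end Pool.Agent.Results.MP_83fd13_an.CircularLevel
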