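import Pool.Agent.Helper327_Sch.Fin.FIN

/-!
# Schiffer's conjecture for eigenfunctions that are finite Fourier–Bessel sums

If the solution of (S) on `Ω` is a finite sum of modes `J_m(√lam r) (a_m cos mθ + b_m sin mθ)` in polar
coordinates about some point `p` of the plane, then `Ω` is a disc with centre `p` and the solution is
radial. Behind it: the critical points of a finite Fourier–Bessel sum are isolated unless it is radial.
-/

set_option autoImplicit false

open MeasureTheory Filter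

namespace Pool.Agent.Results.MP_83fd13_an.FiniteModes

/-- `u` is a weak solution of the overdetermined problem (S) in `Ω` with boundary value `c`:
`-Δu = lam u` in `Ω`, `∂u/∂n = 0` and `u = c` on `∂Ω`. `G` is the weak gradient of `u`; both boundary
conditions are expressed by testing with functions that need not vanish on `∂Ω`. -/
def Solves (Ω : Set ℂ) (lam c : ℝ) (u : ℂ → ℝ) (G : ℂ → ℂ) : Prop :=
  MemLp u 2 (volume.restrict Ω) ∧ MemLp G 2 (volume.restrict Ω) ∧
    (∀ φ : ℂ → ℝ, ContDiff ℝ 1 φ → HasCompactSupport φ → ∀ v : ℂ,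
      ∫ x in Ω, (u x - c) * (fderiv ℝ φ x v) = - ∫ x in Ω, @inner ℝ ℂ _ (G x) v * φ x) ∧
    (∀ φ : ℂ → ℝ, ContDiff ℝ 1 φ → HasCompactSupport φ →
      ∫ x in Ω, fderiv ℝ φ x (G x) = lam * ∫ x in Ω, u x * φ x)

/-- The Bessel function `J_N`. -/
noncomputable def J (N : ℕ) (t : ℝ) : ℝ :=
  ∑' k : ℕ, (-1) ^ k / ((k.factorial : ℝ) * ((k + N).factorial : ℝ)) * (t / 2) ^ (2 * k + N)

/-- The finite Fourier–Bessel sum `∑_{m ≤ M} J_m(√lam r) (a_m cos mθ + b_m sin mθ)`, `(r, θ)` polar
coordinates about `p`. -/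
noncomputable def modes (lam : ℝ) (p : ℂ) (M : ℕ) (a b : ℕ → ℝ) (x : ℂ) : ℝ :=
  ∑ m ∈ Finset.range (M + 1), J m (Real.sqrt lam * ‖x - p‖) *
    (a m * Real.cos (m * Complex.arg (x - p)) + b m * Real.sin (m * Complex.arg (x - p)))

/-- (i) Let `Ω` be a nonempty bounded open set with connected complement, equal to the interior of its
closure, let `lam > 0` and let `u` be a nontrivial solution of (S) on `Ω` that agrees almost everywhere
in `Ω` with a finite Fourier–Bessel sum about some point `p` of the plane. Then `Ω` is a disc centred at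
`p`, its radius `r` satisfies `J_1(√lam r) = 0`, and all modes of `u` of positive order vanish, that is
`u = a_0 J_0(√lam |x - p|)`.
(ii) The critical points of a finite Fourier–Bessel sum with a nonzero mode of positive order are
isolated: they have no accumulation point. -/
theorem result :
    (∀ (Ω : Set ℂ), IsOpen Ω → Bornology.IsBounded Ω → Ω.Nonempty → IsConnected Ωᶜ →
      interior (closure Ω) = Ω → ∀ (lam c : ℝ), 0 < lam → ∀ (u : ℂ → ℝ) (G : ℂ → ℂ),
      Solves Ω lam c u G → ¬ (u =ᵐ[volume.restrict Ω] 0) →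
      ∀ (p : ℂ) (M : ℕ) (a b : ℕ → ℝ), (∀ᵐ x ∂(volume.restrict Ω), u x = modes lam p M a b x) →
      (∃ r : ℝ, 0 < r ∧ Ω = Metric.ball p r ∧ J 1 (Real.sqrt lam * r) = 0) ∧
        ∀ m, 1 ≤ m → m ≤ M → a m = 0 ∧ b m = 0) ∧
    (∀ (lam : ℝ), 0 < lam → ∀ (p : ℂ) (M : ℕ) (a b : ℕ → ℝ),
      (∃ m, 1 ≤ m ∧ m ≤ M ∧ ¬ (a m = 0 ∧ b m = 0)) →
      ∀ x₀ : ℂ, ¬ AccPt x₀ (Filter.principal {x | fderiv ℝ (modes lam p M a b) x = 0})) := by
  refine ⟨fun Ω ho hb hne hco hint lam c hlam u G hS hu0 p M a b hF => ?_, ?_⟩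
  · obtain ⟨hu, hG, h1, h2⟩ := hS
    obtain ⟨r, hr, hball, hJ, hm⟩ := Pool.Agent.Helper327_Sch.finite_modes ho hb hne
      hco.isPreconnected hint hlam ⟨hu, hG, h1, h2⟩ hu0 p M a b hF
    exact ⟨⟨r, hr, hball, hJ⟩, hm⟩
  · intro lam hlam p M a b hm x₀
    exact Pool.Agent.Helper327_Sch.modes_iso hlam p M a b hm x₀

end Pool.Agent.Results.MP_83fd13_an.FiniteModes
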