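import Pool.Agent.Helper327_Sch.Fin.TFIN

/-!
# Schiffer's conjecture for eigenfunctions whose translates span a finite-dimensional space

No nontrivial solution of (S) on any bounded open set is the restriction of a solution `F` of the
Helmholtz equation in the plane whose translates span a finite-dimensional space, or which is a finite
sum of products of functions of one Cartesian coordinate (separation of variables). These are the
exponential polynomials: finite sums of plane waves, propagating or evanescent (complex wave vectors),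
with polynomial amplitudes. Behind it: the critical points of such an `F` are isolated unless `F`
depends on one coordinate only.
-/

set_option autoImplicit false

open MeasureTheory Filter
open scoped ContDiff

namespace Pool.Agent.Results.MP_83fd13_an.FiniteTranslates

/-- `u` is a weak solution of the overdetermined problem (S) in `Ω` with boundary value `c`:
`-Δu = lam u` in `Ω`, `∂u/∂n = 0` and `u = c` on `∂Ω`. `G` is the weak gradient of `u`; both boundary
conditions are expressed by testing with functions that need not vanish on `∂Ω`. -/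
def Solves (Ω : Set ℂ) (lam c : ℝ) (u : ℂ → ℝ) (G : ℂ → ℂ) : Prop :=
  MemLp u 2 (volume.restrict Ω) ∧ MemLp G 2 (volume.restrict Ω) ∧
    (∀ φ : ℂ → ℝ, ContDiff ℝ 1 φ → HasCompactSupport φ → ∀ v : ℂ,
      ∫ x in Ω, (u x - c) * (fderiv ℝ φ x v) = - ∫ x in Ω, @inner ℝ ℂ _ (G x) v * φ x) ∧
    (∀ φ : ℂ → ℝ, ContDiff ℝ 1 φ → HasCompactSupport φ →
      ∫ x in Ω, fderiv ℝ φ x (G x) = lam * ∫ x in Ω, u x * φ x)

/-- `F` is smooth and `ΔF = -lam F` in the whole plane. -/
def Helmholtz (lam : ℝ) (F : ℂ → ℝ) : Prop :=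
  ContDiff ℝ ∞ F ∧ ∀ x : ℂ, fderiv ℝ (fun y => fderiv ℝ F y 1) x 1 +
    fderiv ℝ (fun y => fderiv ℝ F y Complex.I) x Complex.I = -(lam * F x)

/-- The translates `x ↦ F (x + p)` of `F` span a finite-dimensional space. -/
def FinTranslates (F : ℂ → ℝ) : Prop :=
  FiniteDimensional ℝ (Submodule.span ℝ (Set.range fun p : ℂ => fun x : ℂ => F (x + p)))

/-- `F` is a finite sum of products of functions of one Cartesian coordinate. -/
def FinProducts (F : ℂ → ℝ) : Prop :=
  ∃ (K : ℕ) (f g : Fin K → ℝ → ℝ), ∀ x : ℂ, F x = ∑ k, f k x.re * g k x.im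

/-- (i) Let `Ω` be a nonempty bounded open set, equal to the interior of its closure, and let `lam > 0`.
No nontrivial solution of (S) on `Ω` agrees almost everywhere in `Ω` with a solution `F` of the
Helmholtz equation in the plane whose translates span a finite-dimensional space or which is a finite
sum of products `f_k(x_1) g_k(x_2)`.
(ii) The critical points of such a function `F` are isolated (they have no accumulation point) unless
`F` depends on one coordinate only, that is, equals `A cos(√lam ⟨e, x⟩ + φ)`. -/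
theorem result :
    (∀ (Ω : Set ℂ), IsOpen Ω → Bornology.IsBounded Ω → Ω.Nonempty → interior (closure Ω) = Ω →
      ∀ (lam c : ℝ), 0 < lam → ∀ (u : ℂ → ℝ) (G : ℂ → ℂ),
      Solves Ω lam c u G → ¬ (u =ᵐ[volume.restrict Ω] 0) →
      ∀ F : ℂ → ℝ, Helmholtz lam F → (FinTranslates F ∨ FinProducts F) →
      ¬ (∀ᵐ x ∂(volume.restrict Ω), u x = F x)) ∧
    (∀ (lam : ℝ), 0 < lam → ∀ F : ℂ → ℝ, Helmholtz lam F → (FinTranslates F ∨ FinProducts F) →
      (¬ ∃ (e : ℂ) (A φ : ℝ), ‖e‖ = 1 ∧
        ∀ x, F x = A * Real.cos (Real.sqrt lam * @inner ℝ ℂ _ e x + φ)) →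
      ∀ x₀ : ℂ, ¬ AccPt x₀ (Filter.principal {x | fderiv ℝ F x = 0})) := by
  have hcl : ∀ (lam : ℝ) (F : ℂ → ℝ), Helmholtz lam F → (FinTranslates F ∨ FinProducts F) →
      Pool.Agent.Helper327_Sch.TF.TransFin F := by
    rintro lam F hH (hT | ⟨K, f, g, hP⟩)
    · exact hT
    · exact Pool.Agent.Helper327_Sch.TF.trans_of_products F hH.1 lam hH.2 K f g hP
  refine ⟨fun Ω ho hb hne hint lam c hlam u G hS hu0 F hH hT hF => ?_, ?_⟩
  · obtain ⟨hu, hG, h1, h2⟩ := hS
    exact Pool.Agent.Helper327_Sch.TF.no_tf ho hb hne hint hlam ⟨hu, hG, h1, h2⟩ hu0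
      F hH.1 (hcl lam F hH hT) hH.2 hF
  · intro lam hlam F hH hT hne x₀
    refine Pool.Agent.Helper327_Sch.TF.iso F hH.1 (hcl lam F hH hT) lam hlam hH.2 ?_ x₀
    rintro ⟨e, A, φ, he, h⟩
    refine hne ⟨e, A, φ, he, fun x => ?_⟩
    rw [h x, Complex.inner, mul_comm x]

end Pool.Agent.Results.MP_83fd13_an.FiniteTranslates
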